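import Pool.Agent.Helper434_conn.Split

set_option autoImplicit false

namespace Pool.Agent.Results.MP_d17781_co.SplitMinDegree

open Finset

/-- Let `s, t ≥ 2` and let `G` be a finite `(s+t-1)`-connected graph all of whose vertices have
degree at least `3s + 3t - 7`. Then the vertex set of `G` has a partition into nonempty sets `A`,
`B` such that `G[A]` is `s`-connected and `G[B]` is `t`-connected. -/
theorem result (V : Type*) [Fintype V] [DecidableEq V] (G : SimpleGraph V) [DecidableRel G.Adj]
    (s t : ℕ) (hs : 2 ≤ s) (ht : 2 ≤ t)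
    (hcard : s + t - 1 < Fintype.card V)
    (hconn : ∀ X : Finset V, X.card < s + t - 1 →
      (G.induce ((Finset.univ \ X : Finset V) : Set V)).Connected)
    (hdeg : ∀ v, 3 * s + 3 * t - 7 ≤ G.degree v) :
    ∃ A B : Finset V, A.Nonempty ∧ B.Nonempty ∧ Disjoint A B ∧ A ∪ B = Finset.univ ∧
      (s < A.card ∧ ∀ X : Finset V, X ⊆ A → X.card < s →
        (G.induce ((A \ X : Finset V) : Set V)).Connected) ∧
      (t < B.card ∧ ∀ X : Finset V, X ⊆ B → X.card < t →
        (G.induce ((B \ X : Finset V) : Set V)).Connected) := by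
  have hG : Helper434_conn.KConn G (s + t - 1) (univ : Finset V) := by
    rw [← Helper434_conn.kconn_iff]
    exact ⟨by rw [card_univ]; exact hcard, fun X _ hX => hconn X hX⟩
  obtain ⟨A, B, hd, hu, hA, hB⟩ := Helper434_conn.exists_split G s t hs ht hG hdeg
  refine ⟨A, B, card_pos.mp (lt_of_le_of_lt (Nat.zero_le _) hA.1),
    card_pos.mp (lt_of_le_of_lt (Nat.zero_le _) hB.1), hd, hu, ?_, ?_⟩
  · rw [Helper434_conn.kconn_iff]; exact hA
  · rw [Helper434_conn.kconn_iff]; exact hB

end Pool.Agent.Results.MP_d17781_co.SplitMinDegree
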